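import Pool.Agent.Helper40.ZU.Stmts
import Pool.Agent.Helper47.TW.WLim
import Pool.Agent.Helper95.GY.RIS

/-!
Sheet ZU (MP_7a8f48_an), row VCO: correlations along an orbit.
-/

set_option autoImplicit false

open MeasureTheory Filter Topology Finset
open scoped ComplexConjugate BoundedContinuousFunction ENNReal

namespace Pool.Agent.Helper47.ZU

open Pool.Agent.Helper40.ZU
open Pool.Agent.Helper47.TW (emp emp_integral emp_integral_real tele)

/-- comparison of finite measures by continuous functions -/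
theorem le_of_cont {X : Type} [MetricSpace X] [CompactSpace X] [MeasurableSpace X] [BorelSpace X]
    (μ₁ μ₂ : Measure X) [IsFiniteMeasure μ₁] [IsFiniteMeasure μ₂]
    (h : ∀ g : X →ᵇ ℝ, (∀ y, 0 ≤ g y) → ∫ y, g y ∂μ₁ ≤ ∫ y, g y ∂μ₂) (A : Set X)
    (hA : MeasurableSet A) : μ₁ A ≤ μ₂ A := by
  have hcl : ∀ F : Set X, IsClosed F → μ₁ F ≤ μ₂ F := by
    intro F hF
    have hd : ∀ n : ℕ, (0 : ℝ) < 1 / ((n : ℝ) + 1) := fun n => Nat.one_div_pos_of_nat
    have hlim : Tendsto (fun n : ℕ => 1 / ((n : ℝ) + 1)) atTop (𝓝 0) :=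
      tendsto_one_div_add_atTop_nhds_zero_nat
    have t1 := tendsto_lintegral_thickenedIndicator_of_isClosed μ₁ hF hd hlim
    have t2 := tendsto_lintegral_thickenedIndicator_of_isClosed μ₂ hF hd hlim
    refine le_of_tendsto_of_tendsto' t1 t2 (fun n => ?_)
    let g : X →ᵇ ℝ := BoundedContinuousFunction.mkOfCompact
      ⟨fun y => ((thickenedIndicator (hd n) F y : NNReal) : ℝ), by
        exact NNReal.continuous_coe.comp (thickenedIndicator (hd n) F).continuous⟩
    have hg : ∀ y, 0 ≤ g y := fun y => NNReal.coe_nonneg _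
    have h1 := h g hg
    have e : ∀ μ : Measure X, IsFiniteMeasure μ → ∫⁻ y, (thickenedIndicator (hd n) F y : ℝ≥0∞) ∂μ
        = ENNReal.ofReal (∫ y, g y ∂μ) := by
      intro μ hμ
      rw [ofReal_integral_eq_lintegral_ofReal (g.integrable μ) (Eventually.of_forall hg)]
      refine lintegral_congr (fun y => ?_)
      exact (ENNReal.ofReal_coe_nnreal).symm
    rw [e μ₁ inferInstance, e μ₂ inferInstance]
    exact ENNReal.ofReal_le_ofReal h1
  rw [hA.measure_eq_iSup_isClosed_of_ne_top (measure_ne_top μ₁ A)]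
  refine iSup₂_le (fun F hFA => iSup_le (fun hF => ?_))
  exact (hcl F hF).trans (measure_mono hFA)

theorem it_cts {X : Type} [TopologicalSpace X] [MeasurableSpace X] {T : X → X} {m : Measure X}
    (hT : MeasurePreserving T m m) (hc : ∀ᵐ z ∂m, ContinuousAt T z) (i : ℕ) :
    ∀ᵐ z ∂m, ContinuousAt T^[i] z := by
  induction i with
  | zero => exact Eventually.of_forall fun z => continuousAt_id
  | succ i ih =>
    have h1 := hT.quasiMeasurePreserving.ae ih
    filter_upwards [hc, h1] with z a1 a2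
    rw [Function.iterate_succ]
    exact ContinuousAt.comp a2 a1

theorem st_VCO (hVAV : ST_VAV) : ST_VCO := by
  have hRIS : Pool.Agent.Helper98.GY.ST_RIS := Pool.Agent.Helper98.GY.st_RIS
  intro X _ _ _ _ L T x m hL p q G c ε hp hq hε hκ
  have hm := hL.prob
  have hTm := (hVAV X L T x m hL).1
  obtain ⟨s, hs⟩ : ∃ s : ℕ, s = max p q := ⟨_, rfl⟩
  have hps : p ≤ s := by rw [hs]; exact le_max_left _ _
  have hqs : q ≤ s := by rw [hs]; exact le_max_right _ _
  have hs1 : 1 ≤ s := hp.trans hps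
  rw [← hs]
  rw [← hs] at hκ
  by_contra hcon
  rw [Filter.not_eventually] at hcon
  obtain ⟨bad, hbad⟩ : ∃ bad : Set ℕ, bad = {N : ℕ | ¬ ‖∑ n ∈ Icc 1 (N / s), G (T^[p * n] x) *
    conj (G (T^[q * n] x))‖ ≤ (c + ε) * (N / s : ℕ)} := ⟨_, rfl⟩
  have hne : (L ⊓ 𝓟 bad).NeBot := by
    rw [hbad]
    exact Filter.frequently_mem_iff_neBot.1 hcon
  let V : Ultrafilter ℕ := Ultrafilter.of (L ⊓ 𝓟 bad)
  have hV := Ultrafilter.of_le (L ⊓ 𝓟 bad)
  have hVL : (V : Filter ℕ) ≤ L := hV.trans inf_le_left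
  have hV1 : (V : Filter ℕ) ≤ atTop := hVL.trans hL.le
  have hV2 : ∀ᶠ N : ℕ in (V : Filter ℕ), N ∈ bad := hV.trans inf_le_right (mem_principal_self _)
  have hV3 : ∀ᶠ N : ℕ in (V : Filter ℕ), N / s - 1 + 1 = N / s := by
    filter_upwards [hV1 (eventually_ge_atTop s)] with N hN
    have : 1 ≤ N / s := (Nat.one_le_div_iff (by omega)).2 hN
    omega
  obtain ⟨τ, hτ⟩ : ∃ τ : X × X → X × X, τ = Prod.map T^[p] T^[q] := ⟨_, rfl⟩
  have hτn : ∀ n, τ^[n] (x, x) = (T^[p * n] x, T^[q * n] x) := by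
    intro n
    rw [hτ, Prod.map_iterate, Prod.map_apply, Function.iterate_mul, Function.iterate_mul]
  obtain ⟨lam, -, hlam⟩ := (isCompact_univ (X := ProbabilityMeasure (X × X))).ultrafilter_le_nhds
    (V.map (fun N => emp τ (x, x) (N / s - 1))) (by simp)
  have hlim : Tendsto (fun N => emp τ (x, x) (N / s - 1)) V (𝓝 lam) := hlam
  have hint : ∀ f : (X × X) →ᵇ ℝ,
      Tendsto (fun N => ∫ z, f z ∂(emp τ (x, x) (N / s - 1) : Measure (X × X))) V
      (𝓝 (∫ z, f z ∂(lam : Measure (X × X)))) :=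
    ProbabilityMeasure.tendsto_iff_forall_integral_tendsto.1 hlim
  have hMtop : Tendsto (fun N : ℕ => ((N / s : ℕ) : ℝ)) V atTop := by
    refine (tendsto_natCast_atTop_atTop.comp ?_).mono_left hV1
    exact Nat.tendsto_div_const_atTop (by omega)
  -- marginals
  have key : ∀ (r : ℕ) (π : X × X → X), 1 ≤ r → r ≤ s → Continuous π →
      (∀ n, π (τ^[n] (x, x)) = T^[r * n] x) → ∀ g : X →ᵇ ℝ, (∀ y, 0 ≤ g y) →
      ∫ y, g y ∂((lam : Measure (X × X)).map π) ≤ ∫ y, g y ∂((s : ℝ≥0∞) • m) := by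
    intro r π hr hrs hπ hπn g hg
    rw [integral_map hπ.measurable.aemeasurable g.continuous.aestronglyMeasurable,
      integral_smul_measure, ENNReal.toReal_natCast, smul_eq_mul]
    have t1 := hint (g.compContinuous ⟨π, hπ⟩)
    have t2 : Tendsto (fun N : ℕ => (∑ n ∈ Icc 1 N, g (T^[n] x)) / (N : ℝ)) V
        (𝓝 (∫ z, g z ∂m)) := (hL.lim ⟨g, g.continuous⟩).mono_left hVL
    have t3 : Tendsto (fun N : ℕ => (∑ n ∈ Icc 1 N, g (T^[n] x)) / (N : ℝ) *
        ((s : ℝ) + s / ((N / s : ℕ) : ℝ))) V (𝓝 ((∫ z, g z ∂m) * (s + 0))) := by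
      refine t2.mul (tendsto_const_nhds.add ?_)
      exact Tendsto.div_atTop tendsto_const_nhds hMtop
    rw [add_zero, mul_comm] at t3
    refine le_of_tendsto_of_tendsto t1 t3 ?_
    filter_upwards [hV3, hV1 (eventually_ge_atTop s)] with N hN hNs
    have hM1 : 1 ≤ N / s := (Nat.one_le_div_iff (by omega)).2 hNs
    have hM0 : (0 : ℝ) < ((N / s : ℕ) : ℝ) := by exact_mod_cast hM1
    have hN0 : (0 : ℝ) < (N : ℝ) := by
      have : 1 ≤ N := hs1.trans hNs
      exact_mod_cast this
    rw [emp_integral_real, hN]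
    have e1 : ∀ n, (g.compContinuous ⟨π, hπ⟩) (τ^[n] (x, x)) = g (T^[r * n] x) := by
      intro n
      show g (π (τ^[n] (x, x))) = _
      rw [hπn]
    simp only [e1]
    have e2 : ∑ n ∈ Icc 1 (N / s), g (T^[r * n] x) ≤ ∑ n ∈ Icc 1 N, g (T^[n] x) := by
      have e3 : ∑ n ∈ Icc 1 (N / s), g (T^[r * n] x) =
          ∑ k ∈ (Icc 1 (N / s)).image (fun n => r * n), g (T^[k] x) := by
        rw [Finset.sum_image]
        intro a _ b _ hab
        exact Nat.eq_of_mul_eq_mul_left (by omega) hab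
      rw [e3]
      refine Finset.sum_le_sum_of_subset_of_nonneg ?_ (fun _ _ _ => hg _)
      intro k hk
      obtain ⟨n, hn, rfl⟩ := Finset.mem_image.1 hk
      rw [Finset.mem_Icc] at hn ⊢
      refine ⟨Nat.mul_pos (by omega) (by omega), ?_⟩
      calc r * n ≤ s * (N / s) := Nat.mul_le_mul hrs hn.2
        _ ≤ N := Nat.mul_div_le N s
    have e4 : (N : ℝ) ≤ s * ((N / s : ℕ) : ℝ) + s := by
      have h1 : N < s * (N / s + 1) := Nat.lt_mul_div_succ N (by omega)
      have h2 : (N : ℝ) < s * ((N / s : ℕ) + 1) := by exact_mod_cast h1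
      linarith
    have hS0 : 0 ≤ ∑ n ∈ Icc 1 N, g (T^[n] x) := Finset.sum_nonneg fun _ _ => hg _
    calc (∑ n ∈ Icc 1 (N / s), g (T^[r * n] x)) / ((N / s : ℕ) : ℝ)
        ≤ (∑ n ∈ Icc 1 N, g (T^[n] x)) / ((N / s : ℕ) : ℝ) :=
          div_le_div_of_nonneg_right e2 hM0.le
      _ = (∑ n ∈ Icc 1 N, g (T^[n] x)) / (N : ℝ) * ((N : ℝ) / ((N / s : ℕ) : ℝ)) := by
          field_simp
      _ ≤ (∑ n ∈ Icc 1 N, g (T^[n] x)) / (N : ℝ) * ((s : ℝ) + s / ((N / s : ℕ) : ℝ)) := by
          refine mul_le_mul_of_nonneg_left ?_ (div_nonneg hS0 hN0.le)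
          rw [div_le_iff₀ hM0, add_mul, div_mul_cancel₀ _ hM0.ne']
          exact e4
  have hfst : ∀ A, MeasurableSet A → (lam : Measure (X × X)).map Prod.fst A ≤ (s : ℕ) * m A := by
    intro A hA
    have hf1 : IsFiniteMeasure ((lam : Measure (X × X)).map Prod.fst) := inferInstance
    have hf2 : IsFiniteMeasure ((s : ℝ≥0∞) • m) :=
      ⟨by rw [Measure.smul_apply, measure_univ, smul_eq_mul, mul_one]; exact ENNReal.natCast_lt_top _⟩
    have := le_of_cont _ ((s : ℝ≥0∞) • m) (key p Prod.fst hp hps continuous_fst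
      (fun n => by rw [hτn])) A hA
    rwa [Measure.smul_apply, smul_eq_mul] at this
  have hsnd : ∀ A, MeasurableSet A → (lam : Measure (X × X)).map Prod.snd A ≤ (s : ℕ) * m A := by
    intro A hA
    have hf1 : IsFiniteMeasure ((lam : Measure (X × X)).map Prod.snd) := inferInstance
    have hf2 : IsFiniteMeasure ((s : ℝ≥0∞) • m) :=
      ⟨by rw [Measure.smul_apply, measure_univ, smul_eq_mul, mul_one]; exact ENNReal.natCast_lt_top _⟩
    have := le_of_cont _ ((s : ℝ≥0∞) • m) (key q Prod.snd hq hqs continuous_snd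
      (fun n => by rw [hτn])) A hA
    rwa [Measure.smul_apply, smul_eq_mul] at this
  have hac1 : (lam : Measure (X × X)).map Prod.fst ≪ m := by
    refine Measure.AbsolutelyContinuous.mk fun A hA h0 => ?_
    have := hfst A hA
    rw [h0, mul_zero] at this
    exact le_antisymm this bot_le
  have hac2 : (lam : Measure (X × X)).map Prod.snd ≪ m := by
    refine Measure.AbsolutelyContinuous.mk fun A hA h0 => ?_
    have := hsnd A hA
    rw [h0, mul_zero] at this
    exact le_antisymm this bot_le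
  -- continuity almost everywhere
  have hct : ∀ᵐ z ∂(lam : Measure (X × X)), ContinuousAt τ z := by
    have a1 : ∀ᵐ z ∂(lam : Measure (X × X)), ContinuousAt T^[p] z.1 :=
      ae_of_ae_map measurable_fst.aemeasurable (hac1.ae_le (it_cts hTm hL.cts p))
    have a2 : ∀ᵐ z ∂(lam : Measure (X × X)), ContinuousAt T^[q] z.2 :=
      ae_of_ae_map measurable_snd.aemeasurable (hac2.ae_le (it_cts hTm hL.cts q))
    filter_upwards [a1, a2] with z b1 b2
    rw [hτ]
    exact ContinuousAt.prodMap b1 b2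
  have hτmeas : Measurable τ := by
    rw [hτ]
    exact (hL.meas.iterate p).prodMap (hL.meas.iterate q)
  -- invariance
  have hinv : MeasurePreserving τ (lam : Measure (X × X)) (lam : Measure (X × X)) := by
    refine ⟨hτmeas, ?_⟩
    have : IsFiniteMeasure ((lam : Measure (X × X)).map τ) := inferInstance
    refine ext_of_forall_integral_eq_of_IsFiniteMeasure fun f => ?_
    rw [integral_map hτmeas.aemeasurable f.continuous.aestronglyMeasurable]
    have hFm : Measurable fun z => f (τ z) := f.continuous.measurable.comp hτmeas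
    have hFi : Integrable (fun z => f (τ z)) (lam : Measure (X × X)) :=
      Integrable.of_bound (C := ‖f‖) hFm.aestronglyMeasurable
        (Eventually.of_forall fun z => f.norm_coe_le_norm _)
    have hall : ∀ e : ℝ, 0 < e → |∫ z, f (τ z) ∂(lam : Measure (X × X)) -
        ∫ z, f z ∂(lam : Measure (X × X))| ≤ 2 * e := by
      intro e he
      obtain ⟨Gf, R, c1, c2, c3, c4, c5, c6⟩ := hRIS (X × X) (lam : Measure (X × X)) ℝ
        (fun z => f (τ z)) ‖f‖ (by
          filter_upwards [hct] with z hz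
          exact f.continuous.continuousAt.comp hz) (fun z => f.norm_coe_le_norm _) e he
      let Gb : (X × X) →ᵇ ℝ := BoundedContinuousFunction.mkOfCompact ⟨Gf, c1⟩
      let Rb : (X × X) →ᵇ ℝ := BoundedContinuousFunction.mkOfCompact ⟨R, c2⟩
      have k1 : |∫ z, f (τ z) ∂(lam : Measure (X × X)) - ∫ z, Gb z ∂(lam : Measure (X × X))| ≤ e := by
        rw [← integral_sub hFi (Gb.integrable _)]
        refine le_trans (norm_integral_le_of_norm_le (Rb.integrable (lam : Measure (X × X)))
          (Eventually.of_forall fun z => c3 z)) c6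
      have k2 : |∫ z, Gb z ∂(lam : Measure (X × X)) - ∫ z, f z ∂(lam : Measure (X × X))| ≤ e := by
        have t1 := ((hint Gb).sub (hint f)).abs
        have t2 := hint Rb
        have t3 : Tendsto (fun N : ℕ => (2 * ‖f‖) / ((N / s : ℕ) : ℝ)) V (𝓝 0) :=
          Tendsto.div_atTop tendsto_const_nhds hMtop
        have t4 := t2.add t3
        rw [add_zero] at t4
        refine le_trans (le_of_tendsto_of_tendsto t1 t4 ?_) c6
        filter_upwards [hV3, hV1 (eventually_ge_atTop s)] with N hN hNs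
        have hM1 : 1 ≤ N / s := (Nat.one_le_div_iff (by omega)).2 hNs
        have hM0 : (0 : ℝ) < ((N / s : ℕ) : ℝ) := by exact_mod_cast hM1
        rw [emp_integral_real, emp_integral_real, emp_integral_real]
        simp only [hN]
        rw [← sub_div, ← add_div, ← Finset.sum_sub_distrib, abs_div, Nat.abs_cast]
        refine div_le_div_of_nonneg_right ?_ hM0.le
        have h4 : ∀ n, Gb (τ^[n] (x, x)) - f (τ^[n] (x, x)) =
            (Gf (τ^[n] (x, x)) - f (τ (τ^[n] (x, x)))) + (f (τ^[n + 1] (x, x)) - f (τ^[n] (x, x))) := by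
          intro n
          rw [Function.iterate_succ_apply']
          show Gf _ - _ = _
          ring
        simp only [h4]
        rw [Finset.sum_add_distrib]
        refine (abs_add_le _ _).trans (add_le_add ?_ ?_)
        · refine (Finset.abs_sum_le_sum_abs _ _).trans (Finset.sum_le_sum fun n _ => ?_)
          rw [abs_sub_comm]
          exact c3 _
        · have h5 : ∑ n ∈ Icc 1 (N / s), (f (τ^[n + 1] (x, x)) - f (τ^[n] (x, x))) =
              f (τ^[N / s - 1 + 2] (x, x)) - f (τ^[1] (x, x)) := by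
            have := tele (fun n => f (τ^[n] (x, x))) (N / s - 1)
            rw [hN] at this
            exact this
          rw [h5]
          refine (abs_sub _ _).trans ?_
          have b1 := f.norm_coe_le_norm (τ^[N / s - 1 + 2] (x, x))
          have b2 := f.norm_coe_le_norm (τ^[1] (x, x))
          rw [Real.norm_eq_abs] at b1 b2
          linarith
      have := abs_sub_le (∫ z, f (τ z) ∂(lam : Measure (X × X)))
        (∫ z, Gb z ∂(lam : Measure (X × X))) (∫ z, f z ∂(lam : Measure (X × X)))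
      linarith
    by_contra hneq
    have hpos : 0 < |∫ z, f (τ z) ∂(lam : Measure (X × X)) - ∫ z, f z ∂(lam : Measure (X × X))| :=
      abs_pos.2 (sub_ne_zero.2 hneq)
    have := hall _ (div_pos hpos (by norm_num : (0 : ℝ) < 4))
    linarith
  -- the integral
  have hΨ : Continuous fun z : X × X => G z.1 * conj (G z.2) := by fun_prop
  have hΨi : ∀ μ : Measure (X × X), IsProbabilityMeasure μ →
      Integrable (fun z : X × X => G z.1 * conj (G z.2)) μ := fun μ _ =>
    (BoundedContinuousFunction.mkOfCompact ⟨_, hΨ⟩).integrable μ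
  have hre : ∀ (u : ℂ) (μ : Measure (X × X)), IsProbabilityMeasure μ →
      ∫ z, (u * (G z.1 * conj (G z.2))).re ∂μ = (u * ∫ z, G z.1 * conj (G z.2) ∂μ).re := by
    intro u μ hμ
    have h1 := Complex.reCLM.integral_comp_comm ((hΨi μ hμ).const_mul u)
    rw [integral_const_mul] at h1
    exact h1
  let fu : ℂ → ((X × X) →ᵇ ℝ) := fun u => BoundedContinuousFunction.mkOfCompact
    ⟨fun z => (u * (G z.1 * conj (G z.2))).re,
      Complex.continuous_re.comp (continuous_const.mul hΨ)⟩
  have hw : ∀ u : ℂ, Tendsto (fun N => (u * ∫ z, G z.1 * conj (G z.2)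
      ∂(emp τ (x, x) (N / s - 1) : Measure (X × X))).re) V
      (𝓝 (u * ∫ z, G z.1 * conj (G z.2) ∂(lam : Measure (X × X))).re) := by
    intro u
    have h1 := hint (fu u)
    have h2 : ∀ μ : Measure (X × X), IsProbabilityMeasure μ →
        ∫ z, fu u z ∂μ = (u * ∫ z, G z.1 * conj (G z.2) ∂μ).re := fun μ hμ => hre u μ hμ
    rw [h2 _ inferInstance] at h1
    refine h1.congr fun N => h2 _ inferInstance
  have hwt : Tendsto (fun N => ∫ z, G z.1 * conj (G z.2)
      ∂(emp τ (x, x) (N / s - 1) : Measure (X × X))) V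
      (𝓝 (∫ z, G z.1 * conj (G z.2) ∂(lam : Measure (X × X)))) := by
    have h1 := hw 1
    have h2 := hw (-Complex.I)
    simp only [one_mul] at h1
    have h3 : ∀ w : ℂ, (-Complex.I * w).re = w.im := fun w => by simp
    simp only [h3] at h2
    have h4 := (Complex.continuous_ofReal.tendsto _).comp h1
    have h5 := ((Complex.continuous_ofReal.tendsto _).comp h2).mul_const Complex.I
    have h6 := h4.add h5
    rw [Complex.re_add_im] at h6
    refine h6.congr fun N => ?_
    simp only [Function.comp_apply]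
    exact Complex.re_add_im _
  have hge : c + ε ≤ ‖∫ z, G z.1 * conj (G z.2) ∂(lam : Measure (X × X))‖ := by
    refine ge_of_tendsto hwt.norm ?_
    filter_upwards [hV2, hV3, hV1 (eventually_ge_atTop s)] with N hN hN3 hNs
    have hM1 : 1 ≤ N / s := (Nat.one_le_div_iff (by omega)).2 hNs
    have hM0 : (0 : ℝ) < ((N / s : ℕ) : ℝ) := by exact_mod_cast hM1
    rw [emp_integral, norm_div, Complex.norm_natCast, hN3, le_div_iff₀ hM0]
    rw [hbad] at hN
    have := (not_le.1 hN).le
    simp only [hτn]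
    exact this
  have hle := hκ (lam : Measure (X × X)) inferInstance (by rw [← hτ]; exact hinv) hfst hsnd
  linarith

end Pool.Agent.Helper47.ZU
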