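import Pool.Agent.Helper40.ZU.Stmts2

/-!
ZU row XTW: frames over a finite tower.
-/

open MeasureTheory Filter Topology Finset

namespace Pool.Agent.Helper47.ZU

open Pool.Agent.Helper98.ZA (pr)
open Pool.Agent.Helper98.ZB (Tw Ev Cl)
open Pool.Agent.Helper16.AZ (E Op)
open Pool.Agent.Helper40.ZU

/-- a bounded function is a function of `q` if all measurable sets are preimages under `q` almost
everywhere -/
theorem xtw_factor {Y W F : Type} [MeasurableSpace Y] [MeasurableSpace W] [NormedAddCommGroup F]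
    [NormedSpace ℝ F] [CompleteSpace F] (ν : Measure Y) [IsProbabilityMeasure ν] (q : Y → W)
    (hq : Measurable q) (hfin : ∀ s, MeasurableSet s → ∃ t,
      MeasurableSet[MeasurableSpace.comap q inferInstance] t ∧ s =ᵐ[ν] t)
    (Φ : Y → F) (hΦ : StronglyMeasurable Φ) (C : ℝ) (hC : ∀ y, ‖Φ y‖ ≤ C) :
    ∃ φ : W → F, StronglyMeasurable φ ∧ ∀ᵐ y ∂ν, Φ y = φ (q y) := by
  have hm : MeasurableSpace.comap q inferInstance ≤ (inferInstance : MeasurableSpace Y) :=
    hq.comap_le
  have hint : Integrable Φ ν :=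
    Integrable.of_bound hΦ.aestronglyMeasurable C (Filter.Eventually.of_forall hC)
  have hsm : StronglyMeasurable[MeasurableSpace.comap q inferInstance]
      (ν[Φ | MeasurableSpace.comap q inferInstance]) := stronglyMeasurable_condExp
  have hae : Φ =ᵐ[ν] ν[Φ | MeasurableSpace.comap q inferInstance] := by
    refine Integrable.ae_eq_of_forall_setIntegral_eq _ _ hint integrable_condExp ?_
    intro s hs _
    obtain ⟨t, ht, hst⟩ := hfin s hs
    rw [setIntegral_congr_set hst, setIntegral_congr_set hst, setIntegral_condExp hm hint ht]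
  obtain ⟨φ, hφ, he⟩ := hsm.exists_eq_measurable_comp
  refine ⟨φ, hφ, ?_⟩
  filter_upwards [hae] with y hy
  rw [hy, he]
  rfl

/-- the values can be made unitary -/
theorem xtw_unitary {Y W : Type} [MeasurableSpace Y] [MeasurableSpace W] (ν : Measure Y)
    [IsProbabilityMeasure ν] (q : Y → W)
    (hq : Measurable q) (hfin : ∀ s, MeasurableSet s → ∃ t,
      MeasurableSet[MeasurableSpace.comap q inferInstance] t ∧ s =ᵐ[ν] t) (d : ℕ)
    (Φ : Y → Op d) (hΦ : StronglyMeasurable Φ) (hu : ∀ y, Φ y ∈ unitary (Op d)) :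
    ∃ φ : W → Op d, StronglyMeasurable φ ∧ (∀ z, φ z ∈ unitary (Op d)) ∧
      ∀ᵐ y ∂ν, Φ y = φ (q y) := by
  classical
  have hb : ∀ y, ‖Φ y‖ ≤ 1 := by
    intro y
    refine ContinuousLinearMap.opNorm_le_bound _ zero_le_one (fun v => ?_)
    have h1 : ‖Φ y v‖ ^ 2 = ‖v‖ ^ 2 := by
      have h2 : (inner ℂ (Φ y v) (Φ y v) : ℂ) = inner ℂ v v := by
        rw [← ContinuousLinearMap.adjoint_inner_right (Φ y)]
        have h3 : (ContinuousLinearMap.adjoint (Φ y)) (Φ y v) = v := by
          have h4 : (star (Φ y) * Φ y) = 1 := (Unitary.mem_iff.1 (hu y)).1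
          have h5 := congrArg (fun A : Op d => A v) h4
          exact h5
        rw [h3]
      rw [inner_self_eq_norm_sq_to_K, inner_self_eq_norm_sq_to_K] at h2
      exact_mod_cast h2
    have h6 : ‖Φ y v‖ = ‖v‖ := by
      have h7 := congrArg Real.sqrt h1
      rwa [Real.sqrt_sq (norm_nonneg _), Real.sqrt_sq (norm_nonneg _)] at h7
    rw [h6, one_mul]
  obtain ⟨φ, hφ, he⟩ := xtw_factor ν q hq hfin Φ hΦ 1 hb
  have : ContinuousStar (Op d) :=
    ⟨(ContinuousLinearMap.adjoint (𝕜 := ℂ) (E := E d) (F := E d)).continuous⟩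
  have hcl : IsClosed (unitary (Op d) : Set (Op d)) := isClosed_unitary
  have hms : MeasurableSet {z : W | φ z ∈ unitary (Op d)} := by
    borelize (Op d)
    exact hφ.measurable hcl.measurableSet
  refine ⟨fun z => if φ z ∈ unitary (Op d) then φ z else 1, ?_, ?_, ?_⟩
  · exact StronglyMeasurable.ite hms hφ stronglyMeasurable_const
  · intro z
    show (if φ z ∈ unitary (Op d) then φ z else 1) ∈ unitary (Op d)
    by_cases hz : φ z ∈ unitary (Op d)
    · rw [if_pos hz]
      exact hz
    · rw [if_neg hz]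
      exact one_mem _
  · filter_upwards [he] with y hy
    have h1 : φ (q y) ∈ unitary (Op d) := by
      rw [← hy]
      exact hu y
    rw [if_pos h1]
    exact hy

theorem st_XTW : ST_XTW := by
  intro X Y _ _ _ _ π S T m _ u N d Φ w hπ heq hT hS hE hTw hfin hw hgen
  have hpr : Measurable (pr u N) := by
    refine measurable_pi_lambda _ (fun i => ?_)
    exact hTw.meas i
  have : IsProbabilityMeasure (m.map π) := Measure.isProbabilityMeasure_map hπ.aemeasurable
  have hmpπ : MeasurePreserving π m (m.map π) := hπ.measurePreserving m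
  have key : ∀ j, ∃ φ : (Fin N → ℂ) → Op (d j), StronglyMeasurable φ ∧
      (∀ z, φ z ∈ unitary (Op (d j))) ∧ ∀ᵐ y ∂(m.map π), Φ j y = φ (pr u N y) := fun j =>
    xtw_unitary (m.map π) (pr u N) hpr hfin (d j) (Φ j) (hw j).1 (hw j).2.1
  choose φ hφ hφu hφe using key
  refine ⟨φ, ⟨⟨?_, ?_, ?_⟩, ?_, ?_⟩, ?_⟩
  · intro k
    exact (hTw.meas k).comp hπ
  · intro k x
    exact hTw.norm k (π x)
  · intro k
    obtain ⟨g, hg, hge⟩ := hTw.inc k
    refine ⟨g, hg, ?_⟩
    filter_upwards [hmpπ.quasiMeasurePreserving.ae hge] with x hx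
    have h1 : π (T x) = S (π x) := heq x
    show u k (π (T x)) = u k (π x) * g (fun i => u i (π x))
    rw [h1]
    exact hx
  · intro j
    refine ⟨hφu j, hφ j, (hw j).2.2.1, (hw j).2.2.2.1, ?_⟩
    filter_upwards [(hw j).2.2.2.2, hmpπ.quasiMeasurePreserving.ae (hφe j)] with x hx hx2
    rw [hx, hx2]
    rfl
  · intro s hs
    obtain ⟨t, ht, hst⟩ := hgen s hs
    have hpre : ∀ b c : Set Y, b =ᵐ[m.map π] c → π ⁻¹' b =ᵐ[m] π ⁻¹' c := fun b c h =>
      hmpπ.quasiMeasurePreserving.preimage_ae_eq h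
    set G : MeasurableSpace X :=
      (⨆ k, MeasurableSpace.comap (fun x => u k (π x)) inferInstance) ⊔
        (⨆ j, MeasurableSpace.comap (w j) inferInstance) with hG
    have hle : MeasurableSpace.comap π inferInstance ⊔
        (⨆ j, MeasurableSpace.comap (w j) inferInstance) ≤
        @eventuallyMeasurableSpace X G (ae m) _ := by
      refine sup_le ?_ ?_
      · rintro s' ⟨b, hb, rfl⟩
        obtain ⟨c, ⟨c', hc', rfl⟩, hbc⟩ := hfin b hb
        refine ⟨π ⁻¹' (pr u N ⁻¹' c'), ?_, ?_⟩
        · have h1 : Measurable[G] (fun x => pr u N (π x)) := by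
            refine @measurable_pi_lambda _ _ _ G _ _ (fun i => ?_)
            have h2 : MeasurableSpace.comap (fun x => u i (π x)) inferInstance ≤ G :=
              le_trans (le_iSup (fun k => MeasurableSpace.comap (fun x => u k (π x)) inferInstance)
                (i : ℕ)) le_sup_left
            exact fun v hv => h2 _ ⟨v, hv, rfl⟩
          exact h1 hc'
        · exact hpre _ _ hbc
      · refine iSup_le (fun j => ?_)
        refine le_trans ?_ (@le_eventuallyMeasurableSpace X G (ae m) _)
        exact le_trans (le_iSup (fun j => MeasurableSpace.comap (w j) inferInstance) j) le_sup_right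
    obtain ⟨t', ht', htt'⟩ := hle t ht
    exact ⟨t', ht', hst.trans htt'⟩
  · intro s hs hTs
    have hle : (⨆ k, MeasurableSpace.comap (fun x => u k (π x)) inferInstance) ≤
        MeasurableSpace.comap π inferInstance := by
      refine iSup_le (fun k => ?_)
      rintro s' ⟨b, hb, rfl⟩
      exact ⟨u k ⁻¹' b, hTw.meas k hb, rfl⟩
    obtain ⟨b, hb, rfl⟩ := hle s hs
    have h1 : (m.map π) (S ⁻¹' b) = m (π ⁻¹' (S ⁻¹' b)) := Measure.map_apply hπ (hS hb)
    have h2 : π ⁻¹' (S ⁻¹' b) = T ⁻¹' (π ⁻¹' b) := by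
      ext x
      simp only [Set.mem_preimage]
      rw [heq x]
    have h3 : S ⁻¹' b =ᵐ[m.map π] b := by
      have h4 : ∀ᵐ y ∂(m.map π), y ∈ S ⁻¹' b ↔ y ∈ b := by
        have hms : MeasurableSet {y | y ∈ S ⁻¹' b ↔ y ∈ b} := by
          have h5 : {y | y ∈ S ⁻¹' b ↔ y ∈ b} = (S ⁻¹' b ∩ b) ∪ ((S ⁻¹' b)ᶜ ∩ bᶜ) := by
            ext y
            simp only [Set.mem_ofPred_eq, Set.mem_union, Set.mem_inter_iff, Set.mem_compl_iff]
            tauto
          rw [h5]
          exact ((hS hb).inter hb).union ((hS hb).compl.inter hb.compl)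
        rw [ae_map_iff hπ.aemeasurable hms]
        filter_upwards [hTs] with x hx
        have h6 : (x ∈ T ⁻¹' (π ⁻¹' b)) ↔ (x ∈ π ⁻¹' b) := by
          constructor
          · intro h7
            exact hx.mp h7
          · intro h7
            exact hx.mpr h7
        rw [← h2] at h6
        exact h6
      exact eventuallyEq_set.2 h4
    have h4 := hE.quasiErgodic.ae_empty_or_univ₀ hb.nullMeasurableSet h3
    rcases h4 with h4 | h4
    · left
      have h5 : (m.map π) b = 0 := by
        rw [measure_congr h4, measure_empty]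
      rwa [Measure.map_apply hπ hb] at h5
    · right
      have h5 : (m.map π) b = 1 := by
        rw [measure_congr h4, measure_univ]
      rwa [Measure.map_apply hπ hb] at h5

end Pool.Agent.Helper47.ZU
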