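import Pool.Agent.Helper40.ZU.Stmts3

/-!
ZU row MIS: the property `Ge` for isomorphic systems.
-/

open MeasureTheory Filter Topology Finset
open scoped ComplexConjugate

namespace Pool.Agent.Helper47.ZU

open Pool.Agent.Helper98.TW (BF)
open Pool.Agent.Helper40.ZU

/-- iterates of an equivariance -/
theorem mis_iter {X Z : Type} [MeasurableSpace Z] (m : Measure Z) (T : X → X) (R : Z → Z)
    (π : Z → X) (hR : MeasurePreserving R m m) (h : ∀ᵐ z ∂m, π (R z) = T (π z)) (p : ℕ) :
    ∀ᵐ z ∂m, π (R^[p] z) = T^[p] (π z) := by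
  induction p with
  | zero => exact Filter.Eventually.of_forall (fun z => rfl)
  | succ p ih =>
    have h1 : ∀ᵐ z ∂m, π (R (R^[p] z)) = T (π (R^[p] z)) :=
      (hR.iterate p).quasiMeasurePreserving.ae h
    filter_upwards [ih, h1] with z hz hz1
    rw [Function.iterate_succ_apply', Function.iterate_succ_apply', hz1, hz]

/-- functions with small correlations -/
theorem mis_Sm {X Z : Type} [MeasurableSpace X] [MeasurableSpace Z] (m : Measure Z)
    [IsProbabilityMeasure m] (T : X → X) (R : Z → Z) (π : Z → X) (hT : Measurable T)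
    (hπ : Measurable π) (hR : MeasurePreserving R m m) (h : ∀ᵐ z ∂m, π (R z) = T (π z))
    (G : X → ℂ) (hG : BF G) (η : ℝ) (hS : Sm (m.map π) T G η) :
    Sm m R (fun z => G (π z)) η := by
  obtain ⟨P₀, hP⟩ := hS
  refine ⟨P₀, fun p q hp hq hpq h1 h2 κ hκ hκi hκ1 hκ2 => ?_⟩
  have hππ : Measurable (Prod.map π π) := hπ.prodMap hπ
  have hTp : Measurable (Prod.map T^[p] T^[q]) := (hT.iterate p).prodMap (hT.iterate q)
  have hpr : IsProbabilityMeasure (κ.map (Prod.map π π)) :=
    Measure.isProbabilityMeasure_map hππ.aemeasurable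
  have e1 : ∀ᵐ z ∂κ, π (R^[p] z.1) = T^[p] (π z.1) := by
    have h3 : ∀ᵐ z ∂(κ.map Prod.fst), π (R^[p] z) = T^[p] (π z) :=
      hκ1.ae_le (mis_iter m T R π hR h p)
    exact ae_of_ae_map measurable_fst.aemeasurable h3
  have e2 : ∀ᵐ z ∂κ, π (R^[q] z.2) = T^[q] (π z.2) := by
    have h3 : ∀ᵐ z ∂(κ.map Prod.snd), π (R^[q] z) = T^[q] (π z) :=
      hκ2.ae_le (mis_iter m T R π hR h q)
    exact ae_of_ae_map measurable_snd.aemeasurable h3
  have hinv : MeasurePreserving (Prod.map T^[p] T^[q]) (κ.map (Prod.map π π))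
      (κ.map (Prod.map π π)) := by
    refine ⟨hTp, ?_⟩
    rw [Measure.map_map hTp hππ]
    have h4 : (Prod.map T^[p] T^[q] ∘ Prod.map π π) =ᵐ[κ]
        (Prod.map π π ∘ Prod.map R^[p] R^[q]) := by
      filter_upwards [e1, e2] with z hz1 hz2
      show (T^[p] (π z.1), T^[q] (π z.2)) = (π (R^[p] z.1), π (R^[q] z.2))
      rw [hz1, hz2]
    rw [Measure.map_congr h4, ← Measure.map_map hππ hκi.measurable, hκi.map_eq]
  have m1 : (κ.map (Prod.map π π)).map Prod.fst ≪ m.map π := by
    have h5 : (κ.map (Prod.map π π)).map Prod.fst = (κ.map Prod.fst).map π := by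
      rw [Measure.map_map measurable_fst hππ, Measure.map_map hπ measurable_fst]
      rfl
    rw [h5]
    exact hκ1.map hπ
  have m2 : (κ.map (Prod.map π π)).map Prod.snd ≪ m.map π := by
    have h5 : (κ.map (Prod.map π π)).map Prod.snd = (κ.map Prod.snd).map π := by
      rw [Measure.map_map measurable_snd hππ, Measure.map_map hπ measurable_snd]
      rfl
    rw [h5]
    exact hκ2.map hπ
  have h6 := hP p q hp hq hpq h1 h2 (κ.map (Prod.map π π)) hpr hinv m1 m2
  rw [integral_map hππ.aemeasurable] at h6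
  · exact h6
  · have h7 : Measurable (fun z : X × X => G z.1 * conj (G z.2)) :=
      (hG.1.comp measurable_fst).mul
        (Complex.continuous_conj.measurable.comp (hG.1.comp measurable_snd))
    exact h7.aestronglyMeasurable

/-- the square norm of a composition -/
theorem mis_int {X Z : Type} [MeasurableSpace X] [MeasurableSpace Z] (m : Measure Z) (π : Z → X)
    (hπ : Measurable π) (F G : X → ℂ) (hF : AEStronglyMeasurable F (m.map π))
    (hG : AEStronglyMeasurable G (m.map π)) :
    ∫ z, ‖F (π z) - G (π z)‖ ^ 2 ∂m = ∫ x, ‖F x - G x‖ ^ 2 ∂(m.map π) := by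
  rw [integral_map hπ.aemeasurable]
  exact ((hF.sub hG).norm.pow 2)

theorem st_MIS : ST_MIS := by
  intro X Z _ _ m _ T R π j hT hπ hj hR hjπ hπR hGe F hF ε hε
  have hmp : MeasurePreserving π m (m.map π) := hπ.measurePreserving m
  have hjm : (m.map π).map j = m := by
    rw [Measure.map_map hj hπ]
    have h1 : (j ∘ π) =ᵐ[m] id := hjπ
    rw [Measure.map_congr h1, Measure.map_id]
  have hjmp : MeasurePreserving j (m.map π) m := ⟨hj, hjm⟩
  obtain ⟨n, f, hf, hle⟩ := hGe (fun x => F (j x)) (hF.comp_measurePreserving hjmp) ε hε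
  refine ⟨n, fun i z => f i (π z), ?_, ?_⟩
  · intro i
    rcases hf i with ⟨hm, l, hl, hle⟩ | ⟨hm, hr⟩
    · left
      refine ⟨hm.comp_measurePreserving hmp, l, hl, ?_⟩
      filter_upwards [hπR, hmp.quasiMeasurePreserving.ae hle] with z hz hz1
      rw [hz, hz1]
    · right
      refine ⟨hm.comp_measurePreserving hmp, fun η hη => ?_⟩
      obtain ⟨G, hG, hi, hS⟩ := hr η hη
      refine ⟨fun z => G (π z), ?_, ?_, ?_⟩
      · obtain ⟨g1, C, g2⟩ := hG
        exact ⟨g1.comp hπ, C, fun z => g2 (π z)⟩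
      · rw [mis_int m π hπ (f i) G hm.1 hG.1.aestronglyMeasurable]
        exact hi
      · exact mis_Sm m T R π hT hπ hR hπR G hG η hS
  · have hsum : AEStronglyMeasurable (fun x => ∑ i, f i x) (m.map π) := by
      have h1 : ∀ i, AEStronglyMeasurable (f i) (m.map π) := by
        intro i
        rcases hf i with ⟨hm, -⟩ | ⟨hm, -⟩
        · exact hm.1
        · exact hm.1
      have h2 := Finset.aestronglyMeasurable_sum (μ := m.map π) Finset.univ
        (f := fun i => f i) (fun i _ => h1 i)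
      have h3 : (∑ i, f i) = fun x => ∑ i, f i x := by
        ext x
        rw [Finset.sum_apply]
      rw [← h3]
      exact h2
    have h1 : ∫ z, ‖F z - ∑ i, f i (π z)‖ ^ 2 ∂m
        = ∫ z, ‖F (j (π z)) - ∑ i, f i (π z)‖ ^ 2 ∂m := by
      refine integral_congr_ae ?_
      filter_upwards [hjπ] with z hz
      rw [hz]
    rw [h1, mis_int m π hπ (fun x => F (j x)) (fun x => ∑ i, f i x)
      (hF.comp_measurePreserving hjmp).1 hsum]
    exact hle

end Pool.Agent.Helper47.ZU
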